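import Mathlib
import Pool.Agent.H29.HS.Iface

/-!
# MP_a2e4e3_an, module C1: growth of the `L_p` norm of `∏ (1 + s u_k / √N)`, `p = 10/9`
-/

set_option autoImplicit false

namespace Pool.Agent.H91.HS
open MeasureTheory Finset Pool.Agent.H29.HS

lemma log_one_add_le (t : ℝ) (ht : |t| ≤ 1 / 2) :
    Real.log (1 + t) ≤ t - t ^ 2 / 2 + 2 * |t| ^ 3 := by
  have h := Real.abs_log_sub_add_sum_range_le (x := -t) (by rw [abs_neg]; linarith) 2
  rw [abs_neg] at h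
  have h2 := (abs_le.mp h).2
  have e : (1 : ℝ) - -t = 1 + t := by ring
  rw [e] at h2
  have e2 : ∑ i ∈ range 2, (-t) ^ (i + 1) / ((i : ℝ) + 1) = -t + t ^ 2 / 2 := by
    rw [Finset.sum_range_succ, Finset.sum_range_succ, Finset.sum_range_zero]
    norm_num
  rw [e2] at h2
  have h3 : |t| ^ (2 + 1) / (1 - |t|) ≤ 2 * |t| ^ 3 := by
    rw [div_le_iff₀ (by linarith)]
    have h0 : 0 ≤ |t| ^ 3 := by positivity
    have h1 : |t| ^ (2 + 1) = |t| ^ 3 := by norm_num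
    rw [h1]
    have h4 : 0 ≤ |t| ^ 3 * (1 / 2 - |t|) := mul_nonneg h0 (by linarith)
    linarith
  linarith

lemma rpow_bound (t : ℝ) (ht : |t| ≤ 1 / 2) :
    (1 + t) ^ (5 / 9 : ℝ) ≤ 1 + 5 / 9 * t - 10 / 81 * t ^ 2 + 3 * |t| ^ 3 := by
  have hA0 : 0 ≤ |t| := abs_nonneg t
  have ht2 : t ^ 2 = |t| ^ 2 := (sq_abs t).symm
  have hlo : -|t| ≤ t := neg_abs_le t
  have hhi : t ≤ |t| := le_abs_self t
  have hpos : 0 < 1 + t := by linarith
  rw [Real.rpow_def_of_pos hpos]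
  set A := |t| with hA
  set e : ℝ := -(A ^ 2) / 2 + 2 * A ^ 3 with he
  set y : ℝ := 5 / 9 * (t + e) with hy
  have hlog := log_one_add_le t ht
  have hle : Real.log (1 + t) * (5 / 9) ≤ y := by
    rw [hy, he]
    rw [ht2, ← hA] at hlog
    linarith
  have hA2 : A ^ 2 ≤ A / 2 := by nlinarith
  have hA3 : A ^ 3 ≤ A ^ 2 / 2 := by nlinarith [pow_nonneg hA0 2]
  have hA2n : 0 ≤ A ^ 2 := by positivity
  have hA3n : 0 ≤ A ^ 3 := by positivity
  have he1 : |e| ≤ 3 / 2 * A ^ 2 := by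
    rw [abs_le]
    constructor <;> rw [he] <;> nlinarith
  have he1' := abs_le.mp he1
  have hyA : |y| ≤ A := by
    rw [abs_le]
    constructor <;> rw [hy] <;> nlinarith
  have hy1 : |y| ≤ 1 := by linarith
  have hexp := Real.exp_bound hy1 (n := 3) (by norm_num)
  have hexp2 := (abs_le.mp hexp).2
  have es : ∑ m ∈ range 3, y ^ m / (m.factorial : ℝ) = 1 + y + y ^ 2 / 2 := by
    rw [Finset.sum_range_succ, Finset.sum_range_succ, Finset.sum_range_succ,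
      Finset.sum_range_zero]
    norm_num [Nat.factorial]
  rw [es] at hexp2
  have hy3 : |y| ^ 3 ≤ A ^ 3 := pow_le_pow_left₀ (abs_nonneg y) hyA 3
  have hc : |y| ^ 3 * (((3 : ℕ).succ : ℝ) / (((3 : ℕ).factorial : ℝ) * ((3 : ℕ) : ℝ))) ≤ A ^ 3 := by
    have : (((3 : ℕ).succ : ℝ) / (((3 : ℕ).factorial : ℝ) * ((3 : ℕ) : ℝ))) = 2 / 9 := by
      norm_num [Nat.factorial]
    rw [this]
    have : 0 ≤ |y| ^ 3 := by positivity
    linarith
  have hte : t * e ≤ 3 / 2 * A ^ 3 := by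
    have h1 : t * e ≤ |t * e| := le_abs_self _
    rw [abs_mul] at h1
    have h2 : |t| * |e| ≤ A * (3 / 2 * A ^ 2) := by
      rw [← hA]
      exact mul_le_mul_of_nonneg_left he1 hA0
    calc t * e ≤ |t| * |e| := h1
      _ ≤ A * (3 / 2 * A ^ 2) := h2
      _ = 3 / 2 * A ^ 3 := by ring
  have hee : e ^ 2 ≤ 9 / 8 * A ^ 3 := by
    have h1 : e ^ 2 ≤ (3 / 2 * A ^ 2) ^ 2 := by
      rw [← sq_abs e]
      exact pow_le_pow_left₀ (abs_nonneg e) he1 2
    have h2 : (3 / 2 * A ^ 2) ^ 2 = 9 / 4 * (A * A ^ 3) := by ring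
    have h3 : A * A ^ 3 ≤ 1 / 2 * A ^ 3 := mul_le_mul_of_nonneg_right ht hA3n
    linarith
  have hy2 : y ^ 2 ≤ 25 / 81 * A ^ 2 + 25 / 81 * (33 / 8) * A ^ 3 := by
    have : y ^ 2 = 25 / 81 * (t ^ 2 + 2 * (t * e) + e ^ 2) := by rw [hy]; ring
    rw [this, ht2]
    linarith
  have hmono := Real.exp_le_exp.mpr hle
  have hyv : y = 5 / 9 * t - 5 / 18 * A ^ 2 + 10 / 9 * A ^ 3 := by rw [hy, he]; ring
  rw [ht2]
  linarith

lemma pointwise (z : ℂ) (hz : ‖z‖ ≤ 1 / 6) :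
    ‖1 + z‖ ^ (10 / 9 : ℝ) ≤
      1 + 10 / 9 * z.re + 5 / 9 * ‖z‖ ^ 2 - 40 / 81 * z.re ^ 2 + 100 * ‖z‖ ^ 3 := by
  set t : ℝ := 2 * z.re + ‖z‖ ^ 2 with ht
  have hn0 : 0 ≤ ‖z‖ := norm_nonneg z
  have hre := Complex.abs_re_le_norm z
  have hre' := abs_le.mp hre
  have hsq : ‖1 + z‖ ^ 2 = 1 + t := by
    rw [ht, Complex.sq_norm, Complex.sq_norm, Complex.normSq_apply, Complex.normSq_apply]
    simp
    ring
  have h2 : ‖z‖ ^ 2 ≤ ‖z‖ / 6 := by nlinarith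
  have h2n : 0 ≤ ‖z‖ ^ 2 := by positivity
  have h3n : 0 ≤ ‖z‖ ^ 3 := by positivity
  have ht3 : |t| ≤ 3 * ‖z‖ := by
    rw [abs_le]
    constructor <;> rw [ht] <;> linarith
  have ht1 : |t| ≤ 1 / 2 := by linarith
  have hb := rpow_bound t ht1
  have e1 : ‖1 + z‖ ^ (10 / 9 : ℝ) = (1 + t) ^ (5 / 9 : ℝ) := by
    rw [← hsq, ← Real.rpow_natCast, ← Real.rpow_mul (norm_nonneg _)]
    norm_num
  rw [e1]
  have ht33 : |t| ^ 3 ≤ 27 * ‖z‖ ^ 3 := by
    calc |t| ^ 3 ≤ (3 * ‖z‖) ^ 3 := pow_le_pow_left₀ (abs_nonneg t) ht3 3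
      _ = 27 * ‖z‖ ^ 3 := by ring
  have ht2 : 4 * z.re ^ 2 - 4 * ‖z‖ ^ 3 ≤ t ^ 2 := by
    have : t ^ 2 = 4 * z.re ^ 2 + 4 * (z.re * ‖z‖ ^ 2) + (‖z‖ ^ 2) ^ 2 := by rw [ht]; ring
    rw [this]
    have h1 : -(‖z‖ ^ 3) ≤ z.re * ‖z‖ ^ 2 := by
      have := mul_le_mul_of_nonneg_right hre'.1 h2n
      calc -(‖z‖ ^ 3) = -‖z‖ * ‖z‖ ^ 2 := by ring
        _ ≤ z.re * ‖z‖ ^ 2 := this
    have h3 : 0 ≤ (‖z‖ ^ 2) ^ 2 := by positivity
    linarith
  have htv : t = 2 * z.re + ‖z‖ ^ 2 := ht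
  linarith

section

variable {Ω : Type} [MeasurableSpace Ω] (μ : Measure Ω) (u : Ω → ℝ)

/-- one factor -/
noncomputable def fac (N : ℕ) (s : ℂ) (x : Ω) : ℝ :=
  ‖1 + s * ((u x / Real.sqrt N : ℝ) : ℂ)‖ ^ (10 / 9 : ℝ)

lemma fac_integral (hu : IsAlph μ u) (N : ℕ) (hN : 0 < N) (s : ℂ)
    (hs : 12 * ‖s‖ ≤ Real.sqrt N) :
    ∫ x, fac u N s x ∂μ ≤ Real.exp ((10 / 9 * phi s + 800 * ‖s‖ ^ 3 / Real.sqrt N) / N) := by
  have := hu.prob
  have hNr : (0 : ℝ) < N := by exact_mod_cast hN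
  have hq : 0 < Real.sqrt N := Real.sqrt_pos.mpr hNr
  have hqq : Real.sqrt N * Real.sqrt N = N := Real.mul_self_sqrt hNr.le
  set q := Real.sqrt N with hqdef
  have hint1 : Integrable u μ := by
    apply Integrable.of_bound hu.meas.aestronglyMeasurable 2
    filter_upwards with x
    rw [Real.norm_eq_abs]; exact hu.bdd x
  have hint2 : Integrable (fun x => u x ^ 2) μ := by
    apply Integrable.of_bound (hu.meas.pow_const 2).aestronglyMeasurable 4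
    filter_upwards with x
    rw [Real.norm_eq_abs, abs_pow]
    have := hu.bdd x
    have h0 := abs_nonneg (u x)
    nlinarith
  set c1 : ℝ := 10 / 9 * (s.re / q) with hc1
  set c2 : ℝ := (5 / 9 * ‖s‖ ^ 2 - 40 / 81 * s.re ^ 2) / N with hc2
  set c0 : ℝ := 1 + 800 * ‖s‖ ^ 3 / q ^ 3 with hc0
  have hpt : ∀ x, fac u N s x ≤ c1 * u x + c2 * u x ^ 2 + c0 := by
    intro x
    have hux := hu.bdd x
    have hux0 := abs_nonneg (u x)
    set z : ℂ := s * ((u x / q : ℝ) : ℂ) with hz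
    have hzn : ‖z‖ = ‖s‖ * (|u x| / q) := by
      rw [hz, norm_mul, Complex.norm_real, Real.norm_eq_abs, abs_div, abs_of_pos hq]
    have hzre : z.re = s.re * (u x / q) := by
      rw [hz, Complex.mul_re, Complex.ofReal_re, Complex.ofReal_im]; ring
    have hz6 : ‖z‖ ≤ 1 / 6 := by
      rw [hzn, ← mul_div_assoc, div_le_iff₀ hq]
      nlinarith [norm_nonneg s]
    have hp := pointwise z hz6
    have e1 : fac u N s x = ‖1 + z‖ ^ (10 / 9 : ℝ) := rfl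
    rw [e1]
    have hz2 : ‖z‖ ^ 2 = ‖s‖ ^ 2 * u x ^ 2 / N := by
      rw [hzn, mul_pow, div_pow, sq_abs, ← hqq]; ring
    have hzre2 : z.re ^ 2 = s.re ^ 2 * u x ^ 2 / N := by
      rw [hzre, mul_pow, div_pow, ← hqq]; ring
    have hz3 : ‖z‖ ^ 3 ≤ 8 * ‖s‖ ^ 3 / q ^ 3 := by
      rw [hzn, mul_pow, div_pow]
      have h8 : |u x| ^ 3 ≤ 8 := by
        calc |u x| ^ 3 ≤ 2 ^ 3 := pow_le_pow_left₀ hux0 hux 3
          _ = 8 := by norm_num
      rw [← mul_div_assoc]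
      apply div_le_div_of_nonneg_right _ (by positivity)
      have : 0 ≤ ‖s‖ ^ 3 := by positivity
      nlinarith
    rw [hz2, hzre2, hzre] at hp
    have e2 : c1 * u x + c2 * u x ^ 2 + c0 = 1 + 10 / 9 * (s.re * (u x / q)) +
        5 / 9 * (‖s‖ ^ 2 * u x ^ 2 / N) - 40 / 81 * (s.re ^ 2 * u x ^ 2 / N)
        + 100 * (8 * ‖s‖ ^ 3 / q ^ 3) := by
      rw [hc1, hc2, hc0]; ring
    rw [e2]
    linarith
  have hImeas : Measurable (fac u N s) := by
    unfold fac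
    have : Measurable (fun x => ‖1 + s * ((u x / Real.sqrt N : ℝ) : ℂ)‖) := by
      have h1 : Measurable (fun x => ((u x / Real.sqrt N : ℝ) : ℂ)) :=
        Complex.measurable_ofReal.comp (hu.meas.div_const _)
      exact (measurable_const.add (measurable_const.mul h1)).norm
    exact this.pow_const _
  have hrhsI : Integrable (fun x => c1 * u x + c2 * u x ^ 2 + c0) μ :=
    ((hint1.const_mul c1).add (hint2.const_mul c2)).add (integrable_const c0)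
  have hfacI : Integrable (fac u N s) μ := by
    apply hrhsI.mono' hImeas.aestronglyMeasurable
    filter_upwards with x
    rw [Real.norm_of_nonneg (by unfold fac; positivity)]
    exact hpt x
  have hcalc : ∫ x, (c1 * u x + c2 * u x ^ 2 + c0) ∂μ = c2 + c0 := by
    have h12 : Integrable (fun x => c1 * u x + c2 * u x ^ 2) μ :=
      (hint1.const_mul c1).add (hint2.const_mul c2)
    rw [integral_add h12 (integrable_const c0),
      integral_add (hint1.const_mul c1) (hint2.const_mul c2), integral_const_mul,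
      integral_const_mul, hu.mean, hu.var]
    simp
  have hle : ∫ x, fac u N s x ∂μ ≤ c2 + c0 := by
    rw [← hcalc]
    exact integral_mono hfacI hrhsI hpt
  have hval : c2 + c0 = (10 / 9 * phi s + 800 * ‖s‖ ^ 3 / q) / N + 1 := by
    have hs2 : ‖s‖ ^ 2 = s.re ^ 2 + s.im ^ 2 := by
      rw [Complex.sq_norm, Complex.normSq_apply]; ring
    rw [hc2, hc0, hs2]
    unfold phi
    have e3 : q ^ 3 = q * N := by rw [← hqq]; ring
    rw [e3]
    field_simp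
    ring
  rw [hval] at hle
  exact hle.trans (Real.add_one_le_exp _)

lemma nrm_WW_eq (hu : IsAlph μ u) (N : ℕ) (s : ℂ) :
    nrm (Measure.pi fun _ : Fin N => μ) (fun ω => ‖WW s (fun k => u (ω k))‖) =
      ((∫ x, fac u N s x ∂μ) ^ N) ^ (9 / 10 : ℝ) := by
  have := hu.prob
  unfold nrm
  congr 1
  have e : (fun ω : Fin N → Ω => |‖WW s (fun k => u (ω k))‖| ^ (10 / 9 : ℝ)) =
      fun ω : Fin N → Ω => ∏ k, fac u N s (ω k) := by
    funext ω
    rw [abs_of_nonneg (norm_nonneg _)]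
    unfold WW fac
    rw [norm_prod, Real.finsetProd_rpow _ _ (fun i _ => norm_nonneg _)]
  rw [e]
  rw [integral_fintype_prod_eq_pow (ι := Fin N) (fac u N s)]
  simp

end

theorem c1 : C1Stmt := by
  intro Ω _ μ u hu r
  set R : ℝ := |r| with hR
  have hR0 : 0 ≤ R := abs_nonneg r
  obtain ⟨N₀, hN₀⟩ := exists_nat_ge ((12 * R + 720 * R ^ 3 + 1) ^ 2)
  refine ⟨N₀, fun N hN s hs => ?_⟩
  have hsR : ‖s‖ ≤ R := hs.trans (le_abs_self r)
  have hs0 := norm_nonneg s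
  have hB : 0 ≤ 12 * R + 720 * R ^ 3 + 1 := by positivity
  have hNr : (12 * R + 720 * R ^ 3 + 1) ^ 2 ≤ (N : ℝ) :=
    hN₀.trans (by exact_mod_cast hN)
  have hq : 12 * R + 720 * R ^ 3 + 1 ≤ Real.sqrt N := Real.le_sqrt_of_sq_le hNr
  have hR3 : 0 ≤ R ^ 3 := by positivity
  have hNpos : 0 < N := by
    rcases Nat.eq_zero_or_pos N with h | h
    · subst h
      simp at hq
      linarith
    · exact h
  have hNrp : (0 : ℝ) < N := by exact_mod_cast hNpos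
  have hqp : 0 < Real.sqrt N := Real.sqrt_pos.mpr hNrp
  rw [nrm_WW_eq μ u hu]
  have hF := fac_integral μ u hu N hNpos s (by nlinarith)
  have hF0 : 0 ≤ ∫ x, fac u N s x ∂μ :=
    integral_nonneg (fun x => by unfold fac; positivity)
  have h1 : (∫ x, fac u N s x ∂μ) ^ N ≤
      Real.exp (10 / 9 * phi s + 800 * ‖s‖ ^ 3 / Real.sqrt N) := by
    calc (∫ x, fac u N s x ∂μ) ^ N
        ≤ (Real.exp ((10 / 9 * phi s + 800 * ‖s‖ ^ 3 / Real.sqrt N) / N)) ^ N :=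
          pow_le_pow_left₀ hF0 hF N
      _ = Real.exp (10 / 9 * phi s + 800 * ‖s‖ ^ 3 / Real.sqrt N) := by
          rw [← Real.exp_nat_mul]
          congr 1
          field_simp
  calc ((∫ x, fac u N s x ∂μ) ^ N) ^ (9 / 10 : ℝ)
      ≤ (Real.exp (10 / 9 * phi s + 800 * ‖s‖ ^ 3 / Real.sqrt N)) ^ (9 / 10 : ℝ) :=
        Real.rpow_le_rpow (by positivity) h1 (by norm_num)
    _ = Real.exp ((10 / 9 * phi s + 800 * ‖s‖ ^ 3 / Real.sqrt N) * (9 / 10)) := by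
        rw [← Real.exp_mul]
    _ ≤ Real.exp (phi s + 1) := by
        apply Real.exp_le_exp.mpr
        have h3 : ‖s‖ ^ 3 ≤ R ^ 3 := pow_le_pow_left₀ hs0 hsR 3
        have h4 : 720 * ‖s‖ ^ 3 / Real.sqrt N ≤ 1 := by
          rw [div_le_one hqp]
          nlinarith
        have h5 : (10 / 9 * phi s + 800 * ‖s‖ ^ 3 / Real.sqrt N) * (9 / 10) =
            phi s + 720 * ‖s‖ ^ 3 / Real.sqrt N := by ring
        rw [h5]
        linarith

end Pool.Agent.H91.HS
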