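import Mathlib
import Pool.Agent.H29.HS.Iface

/-!
# MP_a2e4e3_an, module C2: the `L_p` norm of `s W_N'(s)` (discrete Cauchy formula)
-/

set_option autoImplicit false

namespace Pool.Agent.H91.HS
open MeasureTheory Finset Pool.Agent.H29.HS

section algebra

open Polynomial

/-- the polynomial `∏ (1 + (s + X) y_k)` -/
noncomputable def PP {N : ℕ} (s : ℂ) (y : Fin N → ℂ) : ℂ[X] :=
  ∏ k, (C (1 + s * y k) + C (y k) * X)

lemma PP_eval {N : ℕ} (s : ℂ) (y : Fin N → ℂ) (t : ℂ) :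
    (PP s y).eval t = ∏ k, (1 + (s + t) * y k) := by
  unfold PP
  rw [eval_prod]
  apply Finset.prod_congr rfl
  intro k _
  simp
  ring

lemma PP_natDegree {N : ℕ} (s : ℂ) (y : Fin N → ℂ) : (PP s y).natDegree < N + 1 := by
  unfold PP
  apply Nat.lt_succ_of_le
  apply (natDegree_prod_le _ _).trans
  calc ∑ k : Fin N, (C (1 + s * y k) + C (y k) * X).natDegree
      ≤ ∑ _k : Fin N, 1 := by
        apply Finset.sum_le_sum
        intro k _
        compute_degree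
    _ = N := by simp

lemma PP_coeff_one {N : ℕ} (s : ℂ) (y : Fin N → ℂ) :
    (PP s y).coeff 1 = ∑ k, (∏ j ∈ Finset.univ.erase k, (1 + s * y j)) * y k := by
  have h1 : (PP s y).coeff 1 = (derivative (PP s y)).coeff 0 := by
    rw [coeff_derivative]; simp
  rw [h1, coeff_zero_eq_eval_zero]
  unfold PP
  rw [derivative_prod_finset, eval_finsetSum]
  apply Finset.sum_congr rfl
  intro k _
  rw [eval_mul, eval_prod]
  simp

lemma geom_zero {M : ℕ} (ζ : ℂ) (hζ : IsPrimitiveRoot ζ M) (l : ℕ) (hl : ¬ M ∣ l) :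
    ∑ j ∈ range M, ζ ^ (l * j) = 0 := by
  have hne : ζ ^ l ≠ 1 := by
    intro h
    exact hl ((hζ.pow_eq_one_iff_dvd l).mp h)
  have hg := geom_sum_mul (ζ ^ l) M
  have h1 : (ζ ^ l) ^ M = 1 := by
    rw [← pow_mul, mul_comm, pow_mul, hζ.pow_eq_one, one_pow]
  rw [h1, sub_self] at hg
  have h2 : ζ ^ l - 1 ≠ 0 := sub_ne_zero.mpr hne
  have h3 : ∑ i ∈ range M, (ζ ^ l) ^ i = 0 := by
    rcases mul_eq_zero.mp hg with h | h
    · exact h
    · exact absurd h h2
  rw [← h3]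
  apply Finset.sum_congr rfl
  intro j _
  rw [pow_mul]

/-- discrete Cauchy formula -/
lemma cauchy {N : ℕ} (s : ℂ) (y : Fin N → ℂ) (δ : ℂ) (ζ : ℂ) (hζ : IsPrimitiveRoot ζ (N + 2)) :
    ∑ j ∈ range (N + 2), ζ ^ ((N + 1) * j) * ∏ k, (1 + (s + δ * ζ ^ j) * y k) =
      ((N + 2 : ℕ) : ℂ) * (δ * ∑ k, (∏ j ∈ Finset.univ.erase k, (1 + s * y j)) * y k) := by
  have h1 : ∀ j ∈ range (N + 2), ζ ^ ((N + 1) * j) * ∏ k, (1 + (s + δ * ζ ^ j) * y k) =
      ∑ m ∈ range (N + 1), (PP s y).coeff m * δ ^ m * ζ ^ ((N + 1 + m) * j) := by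
    intro j _
    rw [← PP_eval, eval_eq_sum_range' (PP_natDegree s y), Finset.mul_sum]
    apply Finset.sum_congr rfl
    intro m _
    rw [mul_pow, ← pow_mul]
    have : (N + 1 + m) * j = (N + 1) * j + j * m := by ring
    rw [this, pow_add]
    ring
  rw [Finset.sum_congr rfl h1, Finset.sum_comm]
  have h2 : ∀ m ∈ range (N + 1), ∑ j ∈ range (N + 2),
      (PP s y).coeff m * δ ^ m * ζ ^ ((N + 1 + m) * j) =
      if m = 1 then (PP s y).coeff 1 * δ * ((N + 2 : ℕ) : ℂ) else 0 := by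
    intro m hm
    rw [Finset.mem_range] at hm
    rw [← Finset.mul_sum]
    split_ifs with h
    · subst h
      have : ∀ j ∈ range (N + 2), ζ ^ ((N + 1 + 1) * j) = 1 := by
        intro j _
        rw [pow_mul]
        have := hζ.pow_eq_one
        rw [this, one_pow]
      rw [Finset.sum_congr rfl this]
      simp
    · rw [geom_zero ζ hζ, mul_zero]
      rintro ⟨q, hq⟩
      rcases Nat.lt_or_ge q 2 with h2 | h2
      · interval_cases q
        · omega
        · omega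
      · nlinarith
  rw [Finset.sum_congr rfl h2]
  rw [Finset.sum_ite_eq' (range (N + 1)) 1]
  rw [← PP_coeff_one]
  split_ifs with h
  · ring
  · have hN : N = 0 := by
      rw [Finset.mem_range] at h
      omega
    subst hN
    have : (PP s y).coeff 1 = 0 := by
      apply coeff_eq_zero_of_natDegree_lt
      exact PP_natDegree s y
    rw [this]; ring

end algebra

lemma LW_eq {N : ℕ} (s : ℂ) (x : Fin N → ℝ) (δ : ℂ) (hδ : δ ≠ 0) (ζ : ℂ)
    (hζ : IsPrimitiveRoot ζ (N + 2)) :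
    LW s x = ∑ j ∈ range (N + 2),
      (s / (((N + 2 : ℕ) : ℂ) * δ) * ζ ^ ((N + 1) * j)) * WW (s + δ * ζ ^ j) x := by
  have h := cauchy s (fun k => ((x k / Real.sqrt N : ℝ) : ℂ)) δ ζ hζ
  have hN : ((N + 2 : ℕ) : ℂ) ≠ 0 := by
    exact_mod_cast (by omega : N + 2 ≠ 0)
  have h2 : ∑ j ∈ range (N + 2),
      (s / (((N + 2 : ℕ) : ℂ) * δ) * ζ ^ ((N + 1) * j)) * WW (s + δ * ζ ^ j) x =
      s / (((N + 2 : ℕ) : ℂ) * δ) * ∑ j ∈ range (N + 2), ζ ^ ((N + 1) * j) *
        ∏ k, (1 + (s + δ * ζ ^ j) * ((x k / Real.sqrt N : ℝ) : ℂ)) := by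
    rw [Finset.mul_sum]
    apply Finset.sum_congr rfl
    intro j _
    unfold WW
    ring
  rw [h2, h]
  have h3 : s / (((N + 2 : ℕ) : ℂ) * δ) * (((N + 2 : ℕ) : ℂ) *
      (δ * ∑ k, (∏ j ∈ Finset.univ.erase k, (1 + s * ((x j / Real.sqrt N : ℝ) : ℂ))) *
        ((x k / Real.sqrt N : ℝ) : ℂ))) =
      s * ∑ k, (∏ j ∈ Finset.univ.erase k, (1 + s * ((x j / Real.sqrt N : ℝ) : ℂ))) *
        ((x k / Real.sqrt N : ℝ) : ℂ) := by
    field_simp
  rw [h3]
  unfold LW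
  rw [Finset.mul_sum]
  apply Finset.sum_congr rfl
  intro k _
  ring

section norms

/-- the exponent -/
noncomputable def pe : ENNReal := ENNReal.ofReal (10 / 9)

lemma pe_ne_zero : pe ≠ 0 := by
  unfold pe
  rw [Ne, ENNReal.ofReal_eq_zero]
  norm_num

lemma pe_ne_top : pe ≠ ⊤ := ENNReal.ofReal_ne_top

lemma pe_toReal : pe.toReal = 10 / 9 := ENNReal.toReal_ofReal (by norm_num)

lemma one_le_pe : 1 ≤ pe := by
  unfold pe
  rw [ENNReal.one_le_ofReal]
  norm_num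

lemma nrm_eq {Ω : Type} [MeasurableSpace Ω] (μ : Measure Ω) (f : Ω → ℂ) (hf : MemLp f pe μ) :
    ENNReal.ofReal (nrm μ (fun x => ‖f x‖)) = eLpNorm f pe μ := by
  rw [hf.eLpNorm_eq_integral_rpow_norm pe_ne_zero pe_ne_top]
  congr 1
  unfold nrm
  rw [pe_toReal]
  have : (10 / 9 : ℝ)⁻¹ = 9 / 10 := by norm_num
  rw [this]
  simp only [abs_norm]

lemma nrm_nonneg {Ω : Type} [MeasurableSpace Ω] (μ : Measure Ω) (X : Ω → ℝ) : 0 ≤ nrm μ X := by
  unfold nrm
  apply Real.rpow_nonneg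
  exact integral_nonneg (fun x => by positivity)

/-- finite Minkowski inequality -/
lemma nrm_sum_le {Ω : Type} [MeasurableSpace Ω] (μ : Measure Ω) {J : Type} (A : Finset J)
    (c : J → ℂ) (f : J → Ω → ℂ) (hf : ∀ j ∈ A, MemLp (f j) pe μ) :
    nrm μ (fun x => ‖∑ j ∈ A, c j * f j x‖) ≤ ∑ j ∈ A, ‖c j‖ * nrm μ (fun x => ‖f j x‖) := by
  have hcf : ∀ j ∈ A, MemLp (fun x => c j * f j x) pe μ := fun j hj => (hf j hj).const_mul (c j)
  have hsum : MemLp (∑ j ∈ A, fun x => c j * f j x) pe μ := memLp_finsetSum' A hcf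
  have hfun : (∑ j ∈ A, fun x => c j * f j x) = fun x => ∑ j ∈ A, c j * f j x := by
    funext x; rw [Finset.sum_apply]
  have h1 : ENNReal.ofReal (nrm μ (fun x => ‖∑ j ∈ A, c j * f j x‖)) ≤
      ∑ j ∈ A, ENNReal.ofReal (‖c j‖ * nrm μ (fun x => ‖f j x‖)) := by
    rw [nrm_eq μ (fun x => ∑ j ∈ A, c j * f j x) (by rw [← hfun]; exact hsum), ← hfun]
    refine (eLpNorm_sum_le (fun j hj => (hcf j hj).aestronglyMeasurable) one_le_pe).trans ?_
    apply Finset.sum_le_sum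
    intro j hj
    rw [ENNReal.ofReal_mul (norm_nonneg _), nrm_eq μ (f j) (hf j hj)]
    have : (fun x => c j * f j x) = c j • f j := by
      funext x; simp
    rw [this, eLpNorm_const_smul]
    rw [← ofReal_norm]
  rw [← ENNReal.ofReal_sum_of_nonneg
    (fun j _ => mul_nonneg (norm_nonneg _) (nrm_nonneg μ _))] at h1
  rwa [ENNReal.ofReal_le_ofReal_iff
    (Finset.sum_nonneg (fun j _ => mul_nonneg (norm_nonneg _) (nrm_nonneg μ _)))] at h1

end norms

lemma WW_memLp {Ω : Type} [MeasurableSpace Ω] (μ : Measure Ω) (u : Ω → ℝ) (hu : IsAlph μ u)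
    (N : ℕ) (s : ℂ) : MemLp (fun ω : Fin N → Ω => WW s (fun k => u (ω k))) pe
      (Measure.pi fun _ : Fin N => μ) := by
  have := hu.prob
  apply MemLp.of_bound (C := (1 + ‖s‖ * (2 / Real.sqrt N)) ^ N)
  · apply Measurable.aestronglyMeasurable
    unfold WW
    apply Finset.measurable_prod
    intro k _
    have h1 : Measurable (fun ω : Fin N → Ω => ((u (ω k) / Real.sqrt N : ℝ) : ℂ)) :=
      Complex.measurable_ofReal.comp ((hu.meas.comp (measurable_pi_apply k)).div_const _)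
    exact measurable_const.add (measurable_const.mul h1)
  · filter_upwards with ω
    unfold WW
    rw [norm_prod]
    calc ∏ k : Fin N, ‖1 + s * ((u (ω k) / Real.sqrt N : ℝ) : ℂ)‖
        ≤ ∏ _k : Fin N, (1 + ‖s‖ * (2 / Real.sqrt N)) := by
          apply Finset.prod_le_prod
          · intro k _; exact norm_nonneg _
          · intro k _
            refine (norm_add_le _ _).trans ?_
            rw [norm_one, norm_mul, Complex.norm_real, Real.norm_eq_abs, abs_div,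
              abs_of_nonneg (Real.sqrt_nonneg _)]
            have h1 := hu.bdd (ω k)
            have h2 : |u (ω k)| / Real.sqrt N ≤ 2 / Real.sqrt N :=
              div_le_div_of_nonneg_right h1 (Real.sqrt_nonneg _)
            have := mul_le_mul_of_nonneg_left h2 (norm_nonneg s)
            linarith
      _ = (1 + ‖s‖ * (2 / Real.sqrt N)) ^ N := by simp

theorem c2 (hC1 : C1Stmt) : C2Stmt := by
  intro Ω _ μ u hu r
  obtain ⟨N₀, hN₀⟩ := hC1 Ω μ u hu (r + 1)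
  refine ⟨N₀, fun N hN s hs δ Φ hδ hδ1 hΦ => ?_⟩
  have hζ : IsPrimitiveRoot (Complex.exp (2 * Real.pi * Complex.I / ((N + 2 : ℕ) : ℂ))) (N + 2) :=
    Complex.isPrimitiveRoot_exp (N + 2) (by omega)
  set ζ := Complex.exp (2 * Real.pi * Complex.I / ((N + 2 : ℕ) : ℂ)) with hζdef
  have hζn : ‖ζ‖ = 1 := hζ.norm'_eq_one (by omega)
  have hδc : (δ : ℂ) ≠ 0 := by exact_mod_cast hδ.ne'
  have hfun : (fun ω : Fin N → Ω => ‖LW s (fun k => u (ω k))‖) =
      fun ω : Fin N → Ω => ‖∑ j ∈ range (N + 2),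
        (s / (((N + 2 : ℕ) : ℂ) * δ) * ζ ^ ((N + 1) * j)) *
          WW (s + δ * ζ ^ j) (fun k => u (ω k))‖ := by
    funext ω
    rw [LW_eq s (fun k => u (ω k)) δ hδc ζ hζ]
  rw [hfun]
  refine (nrm_sum_le (Measure.pi fun _ : Fin N => μ) (range (N + 2))
    (fun j => s / (((N + 2 : ℕ) : ℂ) * δ) * ζ ^ ((N + 1) * j))
    (fun j ω => WW (s + δ * ζ ^ j) (fun k => u (ω k)))
    (fun j _ => WW_memLp μ u hu N _)).trans ?_
  have hterm : ∀ j ∈ range (N + 2), ‖s / (((N + 2 : ℕ) : ℂ) * δ) * ζ ^ ((N + 1) * j)‖ *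
      nrm (Measure.pi fun _ : Fin N => μ) (fun ω => ‖WW (s + δ * ζ ^ j) (fun k => u (ω k))‖) ≤
      ‖s‖ / (((N + 2 : ℕ) : ℝ) * δ) * Real.exp (Φ + 1) := by
    intro j _
    have hcn : ‖s / (((N + 2 : ℕ) : ℂ) * δ) * ζ ^ ((N + 1) * j)‖ =
        ‖s‖ / (((N + 2 : ℕ) : ℝ) * δ) := by
      rw [norm_mul, norm_div, norm_mul, norm_pow, hζn, one_pow, mul_one, Complex.norm_natCast,
        Complex.norm_real, Real.norm_of_nonneg hδ.le]
    rw [hcn]
    apply mul_le_mul_of_nonneg_left _ (by positivity)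
    have hd : ‖(δ : ℂ) * ζ ^ j‖ = δ := by
      rw [norm_mul, norm_pow, hζn, one_pow, mul_one, Complex.norm_real, Real.norm_of_nonneg hδ.le]
    have hnear : ‖s + δ * ζ ^ j - s‖ ≤ δ := by
      rw [add_sub_cancel_left, hd]
    have hfar : ‖s + δ * ζ ^ j‖ ≤ r + 1 := by
      refine (norm_add_le _ _).trans ?_
      rw [hd]
      linarith
    refine (hN₀ N hN (s + δ * ζ ^ j) hfar).trans ?_
    apply Real.exp_le_exp.mpr
    have := hΦ _ hnear
    linarith
  refine (Finset.sum_le_sum hterm).trans ?_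
  rw [Finset.sum_const, Finset.card_range, nsmul_eq_mul]
  have hN2 : (((N + 2 : ℕ) : ℝ)) ≠ 0 := by positivity
  apply le_of_eq
  field_simp

end Pool.Agent.H91.HS
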